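import Pool.Agent.Isoptic.Closure2

set_option autoImplicit false

open Real Set Metric
open Pool.Agent.Isoptic

namespace Pool.Agent.Results.MP_08e0ef_gt.NotExactlyTwo

/-- No compact convex set in the plane has exactly two circular isoptics, also when a circular
isoptic is only required to have a circle as its closure. If two isoptics are circles in this
wider sense, `S` is a disc, and then all its isoptics are circles, concentric with it. -/
theorem result (S : Set Plane) (hS : IsCompact S) (hconv : Convex ℝ S) :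
    (circularIsoptics S).encard ≠ 2 ∧ (closureCircularIsoptics S).encard ≠ 2 ∧
    ∀ α₁ ∈ closureCircularIsoptics S, ∀ α₂ ∈ closureCircularIsoptics S, α₁ ≠ α₂ →
      ∃ (c : Plane) (ρ : ℝ), 0 < ρ ∧ S = closedBall c ρ ∧
        ∀ α ∈ Ioo 0 π, isoptic S α = sphere c (ρ / Real.sin (α / 2)) := by
  have main : ∀ α₁ ∈ closureCircularIsoptics S, ∀ α₂ ∈ closureCircularIsoptics S, α₁ ≠ α₂ →
      ∃ (c : Plane) (ρ : ℝ), 0 < ρ ∧ S = closedBall c ρ ∧
        ∀ α ∈ Ioo 0 π, isoptic S α = sphere c (ρ / Real.sin (α / 2)) := by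
    rintro α₁ ⟨h₁, c₁, R₁, hR₁, hc₁⟩ α₂ ⟨h₂, c₂, R₂, hR₂, hc₂⟩ hne
    obtain ⟨c, ρ, hρ, hSb⟩ := disc_of_two_closure hS hconv h₁ h₂ hR₁ hR₂ hc₁ hc₂ hne
    refine ⟨c, ρ, hρ, hSb, fun α hα => ?_⟩
    rw [hSb]
    exact isoptic_closedBall hρ hα
  have hle : circularIsoptics S ⊆ closureCircularIsoptics S := by
    rintro α ⟨hα, c, r, hr, h⟩
    refine ⟨hα, c, r, hr, ?_⟩
    rw [h]
    exact isClosed_sphere.closure_eq
  have hinf : (Ioo (0 : ℝ) π).Infinite := Ioo_infinite Real.pi_pos
  have hno : ∀ T : Set ℝ, T ⊆ closureCircularIsoptics S → circularIsoptics S ⊆ T →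
      T.encard ≠ 2 := by
    intro T hT hT' h2
    obtain ⟨x, y, hxy, hset⟩ := Set.encard_eq_two.1 h2
    obtain ⟨c, ρ, hρ, -, hall⟩ :=
      main x (hT (by rw [hset]; simp)) y (hT (by rw [hset]; simp)) hxy
    have hsub : Ioo (0 : ℝ) π ⊆ T := by
      intro α hα
      apply hT'
      refine ⟨hα, c, ρ / Real.sin (α / 2), ?_, hall α hα⟩
      have : 0 < Real.sin (α / 2) :=
        Real.sin_pos_of_pos_of_lt_pi (by linarith [hα.1]) (by linarith [hα.1, hα.2])
      positivity
    have hfin : T.Finite := by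
      rw [hset]
      exact (Set.finite_singleton y).insert x
    exact hinf (hfin.subset hsub)
  exact ⟨hno _ hle Subset.rfl, hno _ Subset.rfl hle, main⟩

end Pool.Agent.Results.MP_08e0ef_gt.NotExactlyTwo
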